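import Pool.Agent.Zk28.TF.Full2
import Pool.Agent.Zk28.TF.NDefs

/-!
The determinant of all tensors of a given degree.
-/

set_option autoImplicit false
set_option linter.all false

open FF Pool.Agent.W602.GT

namespace Pool.Agent.Zk80.TF

open Pool.Agent.Zk28.TS Pool.Agent.Zk28.TF

/-- the sum of a function of the letters over all the words -/
theorem sum_letters {n p : ℕ} {M : Type} [AddCommMonoid M] (g : Fin n → M) (a : Fin p) :
    ∑ J : Fin p → Fin n, g (J a) = (n ^ (p - 1)) • ∑ i, g i := by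
  classical
  rw [← Equiv.sum_comp (Equiv.funSplitAt a (Fin n)).symm, Fintype.sum_prod_type, Finset.sum_comm]
  have h1 : ∀ y : {j : Fin p // j ≠ a} → Fin n, ∑ x : Fin n,
      g ((Equiv.funSplitAt a (Fin n)).symm (x, y) a) = ∑ i, g i := by
    intro y
    refine Finset.sum_congr rfl fun i _ => ?_
    simp [Equiv.funSplitAt]
  rw [Finset.sum_congr rfl fun y _ => h1 y, Finset.sum_const, Finset.card_univ, Fintype.card_fun,
    Fintype.card_fin]
  congr 2
  rw [Fintype.card_subtype_compl, Fintype.card_fin, Fintype.card_subtype_eq]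

theorem sum_letters' {n p : ℕ} (g : Fin n → ℝ) :
    ∑ J : Fin p → Fin n, ∑ a, g (J a) = (p * (n : ℝ) ^ (p - 1)) * ∑ i, g i := by
  rw [Finset.sum_comm, Finset.sum_congr rfl fun a _ => sum_letters g a, Finset.sum_const,
    Finset.card_univ, Fintype.card_fin, nsmul_eq_mul, nsmul_eq_mul]
  push_cast
  ring

/-- the determinant of a triangular Kronecker power -/
theorem det_kron {F : Type} [Field F] {n p N : ℕ} (e : Fin N ≃ (Fin p → Fin n))
    (A : Fin n → Fin n → F) (hlow : ∀ i j, i < j → A i j = 0) :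
    (Matrix.of fun l j : Fin N => ∏ a, A (e j a) (e l a)).det = ∏ j : Fin N, ∏ a, A (e j a) (e j a) := by
  classical
  rw [Matrix.det_apply, Finset.sum_eq_single 1]
  · rw [Equiv.Perm.sign_one, one_smul]
    rfl
  · intro σ _ hσ
    have h0 : ∏ i, (Matrix.of fun l j : Fin N => ∏ a, A (e j a) (e l a)) (σ i) i = 0 := by
      by_contra hne
      have hne' := Finset.prod_ne_zero_iff.1 hne
      have h1 : ∀ i a, ((e (σ i) a : Fin n) : ℕ) ≤ (e i a : Fin n) := by
        intro i a
        have h2' : ∏ a, A (e i a) (e (σ i) a) ≠ 0 := hne' i (Finset.mem_univ _)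
        have h2 := Finset.prod_ne_zero_iff.1 h2'
        by_contra hlt
        exact h2 a (Finset.mem_univ _) (hlow _ _ (by
          rw [Fin.lt_def]
          omega))
      have h2 : ∑ i, ∑ a, ((e (σ i) a : Fin n) : ℕ) = ∑ i, ∑ a, ((e i a : Fin n) : ℕ) :=
        Equiv.sum_comp σ fun i => ∑ a, ((e i a : Fin n) : ℕ)
      have h3 := (Finset.sum_eq_sum_iff_of_le fun i _ => Finset.sum_le_sum fun a _ => h1 i a).1 h2
      apply hσ
      ext i
      have h4 := (Finset.sum_eq_sum_iff_of_le fun a _ => h1 i a).1 (h3 i (Finset.mem_univ _))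
      have h5 : σ i = i := by
        apply e.injective
        funext a
        apply Fin.ext
        exact h4 a (Finset.mem_univ _)
      rw [h5]
      rfl
    rw [h0, smul_zero]
  · intro h
    exact absurd (Finset.mem_univ _) h

variable {K : Type} [Field K] [Algebra ℂ K] {n p : ℕ}

/-- the values on a transformed tuple -/
theorem value_fr (s : MTensor K (Fin p)) (A : Fin n → Fin n → K) (b : Fin n → Derivation ℂ K K)
    (J : Fin p → Fin n) : s (fun a => fr A b (J a)) =
      ∑ J' : Fin p → Fin n, algebraMap K (AlgebraicClosure K) (∏ a, A (J a) (J' a)) *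
        s (fun a => b (J' a)) := by
  classical
  unfold fr
  rw [MultilinearMap.map_sum]
  refine Finset.sum_congr rfl fun J' _ => ?_
  rw [MultilinearMap.map_smul_univ, Algebra.smul_def]

/-- the matrix of the values on a basis -/
theorem det_basis_ne {N : ℕ} (e : Fin N ≃ (Fin p → Fin n)) {t : Fin N → MTensor K (Fin p)}
    (hti : LinearIndependent (AlgebraicClosure K) t) {b : Fin n → Derivation ℂ K K}
    (hb : LinearIndependent K b) (hbs : Submodule.span K (Set.range b) = ⊤) :
    (Matrix.of fun i j => t i fun a => b (e j a)).det ≠ 0 := by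
  classical
  apply indep_iff_det.mp
  rw [Fintype.linearIndependent_iff] at hti ⊢
  intro g hg i
  refine hti g ?_ i
  by_contra hne
  obtain ⟨J, hJ⟩ := exists_basis_value' (s := ∑ i, g i • t i) hne hb hbs
  apply hJ
  have h1 := congrFun hg (e.symm J)
  rw [Finset.sum_apply] at h1
  rw [MultilinearMap.sum_apply]
  refine Eq.trans (Finset.sum_congr rfl fun i _ => ?_) h1
  rw [MultilinearMap.smul_apply, Pi.smul_apply, e.apply_symm_apply]

/-- module FR -/
theorem full_det [Algebra.EssFiniteType ℂ K] (hn : 1 ≤ n)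
    (htr : Algebra.trdeg ℂ K = n) {X : Set (Place ℂ K)} {δ : Place ℂ K → ℝ}
    (hδ : ∀ P ∈ X, 0 ≤ δ P ∧ δ P ≤ 1)
    {ω : (Fin n → Derivation ℂ K K) → K} (hω : IsPluri 1 ω)
    (hω0 : ∃ D, ω D ≠ 0) {k : Place ℂ K → ℤ} (hk : DivOf n X ω k)
    (hp : 0 < p) {N : ℕ} (hN : N = n ^ p) {γ : Fin N → Place ℂ K → ℝ}
    {t : Fin N → MTensor K (Fin p)} (ht : ∀ j, MAdapted n X δ (γ j) (t j))
    (hti : LinearIndependent (AlgebraicClosure K) t) :
    Eff n X fun P => -(∑ j, γ j P + p * (n : ℝ) ^ (p - 1) * (k P + δ P)) := by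
  classical
  have hcard : Fintype.card (Fin N) = Fintype.card (Fin p → Fin n) := by
    rw [Fintype.card_fun, Fintype.card_fin, Fintype.card_fin, Fintype.card_fin, hN]
  let e : Fin N ≃ (Fin p → Fin n) := Fintype.equivOfCardEq hcard
  obtain ⟨x, b, hF⟩ := exists_fr htr
  have hfin := hF.finite
  have hbs : Submodule.span K (Set.range b) = ⊤ := hF.span
  have hωb : ω b ≠ 0 := by
    intro h0
    obtain ⟨D, hD⟩ := hω0
    apply hD
    have h1 := hω (Matrix.of fun i j => D i (x j)) b
    have h2 : (fun i => ∑ j, (Matrix.of fun i j => D i (x j)) i j • b j) = D := by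
      funext i
      exact hF.2 (D i)
    rw [h2, h0, mul_zero] at h1
    exact h1
  obtain ⟨c, hc⟩ : ∃ c, c = (Matrix.of fun i j => t i fun a => b (e j a)).det := ⟨_, rfl⟩
  have hc0 : c ≠ 0 := by
    rw [hc]
    exact det_basis_ne e hti hF.indep hbs
  obtain ⟨M, y, hM, hy, hMy⟩ := exists_alg_norm hc0
  refine ⟨M, hM, y / ω b ^ (M * (p * n ^ (p - 1))), div_ne_zero hy (pow_ne_zero _ hωb),
    fun P hPX hP => ?_⟩
  obtain ⟨A, hA⟩ := exists_tri' htr hP hF.indep
  obtain ⟨i0, hi0⟩ := exists_nonlog htr hP hF.indep hA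
  have hkP := divOf_frame htr hω hk hPX hP hF.indep hωb hA
  -- the value on the frame
  have h1 := wedge_adapted' t γ ht P hPX hP (fun q => fr A b (e q.1 q.2)) fun q => hA.reg _
  rw [wedge_apply] at h1
  have h2 : (Matrix.of fun i j => t i fun a => fr A b (e j a)) =
      (Matrix.of fun i j => t i fun a => b (e j a)) *
        (Matrix.of fun l j : Fin N => ∏ a, algebraMap K (AlgebraicClosure K) (A (e j a) (e l a))) := by
    ext i j
    rw [Matrix.mul_apply, Matrix.of_apply, value_fr, ← Equiv.sum_comp e]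
    refine Finset.sum_congr rfl fun l _ => ?_
    rw [Matrix.of_apply, Matrix.of_apply, map_prod, mul_comm]
  have h3 : (Matrix.of fun i j => t i fun a => fr A b (e j a)).det =
      c * algebraMap K (AlgebraicClosure K) (∏ j : Fin N, ∏ a, A (e j a) (e j a)) := by
    rw [h2, Matrix.det_mul, ← hc, det_kron e
      (fun i j => algebraMap K (AlgebraicClosure K) (A i j)) fun i j hij => by
        rw [hA.low i j hij, map_zero], map_prod]
    congr 1
    exact Finset.prod_congr rfl fun j _ => (map_prod _ _ _).symm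
  -- the number of the transversal vector fields
  have h4 : (({q : Fin N × Fin p | ¬ DerLog P (fr A b (e q.1 q.2))}.ncard : ℕ) : ℝ) =
      p * (n : ℝ) ^ (p - 1) := by
    rw [ncard_eq' fun q : Fin N × Fin p => ¬ DerLog P (fr A b (e q.1 q.2)),
      Fintype.sum_prod_type]
    have h5 := sum_letters' (n := n) (p := p) fun i => if ¬ DerLog P (fr A b i) then (1 : ℝ) else 0
    have h6 : ∑ i, (if ¬ DerLog P (fr A b i) then (1 : ℝ) else 0) = 1 := by
      rw [Finset.sum_eq_single i0, if_pos hi0]
      · intro i _ hi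
        rw [if_neg]
        intro h7
        exact hi (hA.one i i0 h7 hi0)
      · intro h7
        exact absurd (Finset.mem_univ _) h7
    rw [h6, mul_one] at h5
    rw [← h5, ← Equiv.sum_comp e]
    refine Finset.sum_congr rfl fun j _ => Finset.sum_congr rfl fun a _ => ?_
    by_cases hd : DerLog P (fr A b (e j a)) <;> simp [hd]
  -- the order of the determinant
  have hdiag : ∏ j : Fin N, ∏ a, A (e j a) (e j a) ≠ 0 :=
    Finset.prod_ne_zero_iff.mpr fun j _ => Finset.prod_ne_zero_iff.mpr fun a _ => hA.diag _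
  have h5 : (P.ord (∏ j : Fin N, ∏ a, A (e j a) (e j a)) : ℝ) =
      p * (n : ℝ) ^ (p - 1) * ∑ i, (P.ord (A i i) : ℝ) := by
    rw [ord_prod' _ _ fun j _ => Finset.prod_ne_zero_iff.mpr fun a _ => hA.diag _]
    rw [← sum_letters' (n := n) (p := p) fun i => (P.ord (A i i) : ℝ), ← Equiv.sum_comp e]
    push_cast
    refine Finset.sum_congr rfl fun j _ => ?_
    rw [ord_prod' _ _ fun a _ => hA.diag _]
    push_cast
    rfl
  have h6 : (k P : ℝ) = ∑ i, (P.ord (A i i) : ℝ) + P.ord (ω b) := by
    rw [hkP]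
    push_cast
    rfl
  -- the order of `c`
  have h7 := h1.mul (AlgOrd.of_GR (P := P)
    (r := -(P.ord (∏ j : Fin N, ∏ a, A (e j a) (e j a)) : ℝ))
    (f := (∏ j : Fin N, ∏ a, A (e j a) (e j a))⁻¹)
    (Or.inr (by rw [P.ord_inv]; push_cast; exact le_rfl)))
  have h8 : (Matrix.of fun i j => t i fun a => fr A b (e j a)).det *
      algebraMap K (AlgebraicClosure K) (∏ j : Fin N, ∏ a, A (e j a) (e j a))⁻¹ = c := by
    rw [h3, mul_assoc, ← map_mul, mul_inv_cancel₀ hdiag, map_one, mul_one]
  have h9 := (hMy P _ (h8 ▸ h7)).1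
  rw [h4, h5] at h9
  rw [P.ord_div hy (pow_ne_zero _ hωb), P.ord_pow]
  push_cast
  rw [h6]
  refine le_trans (le_of_eq ?_) (sub_le_sub_right h9 _)
  ring

end Pool.Agent.Zk80.TF
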